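import Pool.Agent.helper7.EP.SpecH

set_option autoImplicit false

open Finset PowerSeries UpperHalfPlane ModularForm
open scoped MatrixGroups Real

noncomputable section

namespace Pool.Agent.EP

lemma HQ_norm {z : ℂ} (hz : 0 < z.im) : ‖Function.Periodic.qParam 1 z‖ < 1 := by
  have h := (Function.Periodic.norm_qParam_lt_iff one_pos 0 z).2 hz
  simpa using h

lemma HQ_qParam_mul (p : ℕ) (z : ℂ) :
    Function.Periodic.qParam 1 (p * z) = Function.Periodic.qParam 1 z ^ p := by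
  simp only [Function.Periodic.qParam]
  rw [← Complex.exp_nat_mul]
  congr 1
  ring

lemma HQ_sum_root {p : ℕ} (hp : 0 < p) (m : ℕ) :
    ∑ b ∈ range p, (Complex.exp (2 * π * Complex.I / p) ^ m) ^ b = if p ∣ m then (p : ℂ) else 0 := by
  have hprim := Complex.isPrimitiveRoot_exp p hp.ne'
  split_ifs with h
  · rw [(hprim.pow_eq_one_iff_dvd m).mpr h]
    simp
  · have h1 : Complex.exp (2 * π * Complex.I / p) ^ m ≠ 1 := fun h2 =>
      h ((hprim.pow_eq_one_iff_dvd m).mp h2)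
    rw [geom_sum_eq h1, pow_right_comm, hprim.pow_eq_one, one_pow, sub_self, zero_div]

lemma HQ_mul_inj {p : ℕ} (hp : 0 < p) : Function.Injective (fun m : ℕ => p * m) :=
  fun _ _ h => Nat.eq_of_mul_eq_mul_left hp h

lemma HQ_eta (z : ℂ) : ModularForm.eta z ^ 8 =
    Complex.exp (2 * π * Complex.I * z / 3) *
      (∏' n : ℕ, (1 - Function.Periodic.qParam 1 z ^ (n + 1))) ^ 8 := by
  unfold ModularForm.eta
  rw [mul_pow]
  congr 1
  unfold Function.Periodic.qParam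
  rw [← Complex.exp_nat_mul]
  congr 1
  push_cast
  ring

lemma HQ_nn {l : ℕ} (hl : l.Prime) (hl5 : 5 ≤ l) (m : ℕ) : 3 * nn l m + m = l * l * m := by
  have h3 : 3 ∣ l ^ 2 - 1 := by
    have h1 : ¬ 3 ∣ l := by
      intro h
      rcases (Nat.dvd_prime hl).1 h with h | h <;> omega
    have h2 : l ^ 2 % 3 = 1 := by
      rw [Nat.pow_mod]
      have : l % 3 = 1 ∨ l % 3 = 2 := by omega
      rcases this with h | h <;> rw [h]
    omega
  obtain ⟨c, hc⟩ := h3
  have hl2 : 1 ≤ l ^ 2 := Nat.one_le_pow _ _ (by omega)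
  have h4 : l * l = 3 * c + 1 := by rw [← pow_two]; omega
  unfold nn
  rw [hc, Nat.mul_div_cancel_left c (by norm_num), h4]
  ring

lemma HQ_term (l m b N : ℕ) (y ξ A B : ℂ) (hy : y ≠ 0) (hξ : ξ ^ l = 1) (hξ0 : ξ ≠ 0)
    (hB : B ≠ 0) (hN : 3 * N + m = l * l * m) :
    ((y ^ l * A ^ 8) ^ l / (y * (ξ ^ 8) ^ b * B ^ 8)) ^ m =
      A ^ (8 * l * m) * (y ^ (3 * N) * (ξ ^ (24 * N)) ^ b * B⁻¹ ^ (8 * m)) := by
  rw [div_pow, div_eq_iff (by positivity)]
  have h1 : ((y ^ l * A ^ 8) ^ l) ^ m = y ^ (l * l * m) * A ^ (8 * l * m) := by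
    rw [mul_pow, mul_pow]
    simp only [← pow_mul]
  have h2 : y ^ (3 * N) * y ^ m = y ^ (l * l * m) := by rw [← pow_add, hN]
  have h3 : (ξ ^ (24 * N)) ^ b * ((ξ ^ 8) ^ b) ^ m = 1 := by
    have : (ξ ^ (24 * N)) ^ b * ((ξ ^ 8) ^ b) ^ m = (ξ ^ l) ^ (8 * b * l * m) := by
      simp only [← pow_mul]
      rw [← pow_add]
      congr 1
      have : 24 * N * b + 8 * b * m = 8 * b * (3 * N + m) := by ring
      rw [this, hN]
      ring
    rw [this, hξ, one_pow]
  have h4 : B⁻¹ ^ (8 * m) * (B ^ 8) ^ m = 1 := by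
    rw [← pow_mul, ← mul_pow, inv_mul_cancel₀ hB, one_pow]
  rw [h1, mul_pow, mul_pow]
  calc y ^ (l * l * m) * A ^ (8 * l * m)
      = (y ^ (3 * N) * y ^ m) * A ^ (8 * l * m) * 1 * 1 := by rw [h2]; ring
    _ = (y ^ (3 * N) * y ^ m) * A ^ (8 * l * m) * ((ξ ^ (24 * N)) ^ b * ((ξ ^ 8) ^ b) ^ m) *
        (B⁻¹ ^ (8 * m) * (B ^ 8) ^ m) := by rw [h3, h4]
    _ = _ := by ring

theorem HQ (hEVM : EVM_stmt) (hEVE : EVE_stmt) : HQ_stmt := by
  obtain ⟨hmul, hpow, hadd, hC⟩ := hEVM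
  intro l m hl hl5 z hz
  have hl0 : 0 < l := hl.pos
  have hlc : (l : ℂ) ≠ 0 := by exact_mod_cast hl0.ne'
  obtain ⟨y, hy⟩ : ∃ y, y = Complex.exp (2 * π * Complex.I * z / (3 * l)) := ⟨_, rfl⟩
  obtain ⟨ξ, hξ⟩ : ∃ ξ, ξ = Complex.exp (2 * π * Complex.I / l) := ⟨_, rfl⟩
  obtain ⟨q, hq⟩ : ∃ q, q = Function.Periodic.qParam 1 z := ⟨_, rfl⟩
  obtain ⟨P, hP⟩ : ∃ P : ℂ → ℂ, P = fun q => ∏' n : ℕ, (1 - q ^ (n + 1)) := ⟨_, rfl⟩
  obtain ⟨N, hN⟩ : ∃ N, N = nn l m := ⟨_, rfl⟩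
  have hN3 : 3 * N + m = l * l * m := by rw [hN]; exact HQ_nn hl hl5 m
  have hy0 : y ≠ 0 := by rw [hy]; exact Complex.exp_ne_zero _
  have hξ0 : ξ ≠ 0 := by rw [hξ]; exact Complex.exp_ne_zero _
  have hξl : ξ ^ l = 1 := by
    rw [hξ]; exact (Complex.isPrimitiveRoot_exp l hl0.ne').pow_eq_one
  have hqy : q = y ^ (3 * l) := by
    rw [hq, hy, ← Complex.exp_nat_mul]
    unfold Function.Periodic.qParam
    congr 1
    push_cast
    field_simp
  have hq1 : ‖q‖ < 1 := by rw [hq]; exact HQ_norm hz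
  -- the points of the sum
  have hxim : ∀ b : ℕ, 0 < ((z + 24 * (b : ℂ)) / l).im := by
    intro b
    rw [Complex.div_natCast_im]
    have : (z + 24 * (b : ℂ)).im = z.im := by simp
    rw [this]
    positivity
  have hqb : ∀ b : ℕ, Function.Periodic.qParam 1 ((z + 24 * (b : ℂ)) / l) =
      y ^ 3 * (ξ ^ 24) ^ b := by
    intro b
    rw [hy, hξ, ← Complex.exp_nat_mul, ← Complex.exp_nat_mul, ← Complex.exp_nat_mul,
      ← Complex.exp_add]
    unfold Function.Periodic.qParam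
    congr 1
    push_cast
    field_simp
  have hetab : ∀ b : ℕ, ModularForm.eta ((z + 24 * (b : ℂ)) / l) ^ 8 =
      y * (ξ ^ 8) ^ b * P (y ^ 3 * (ξ ^ 24) ^ b) ^ 8 := by
    intro b
    rw [HQ_eta, hqb, hP]
    congr 1
    rw [hy, hξ, ← Complex.exp_nat_mul, ← Complex.exp_nat_mul, ← Complex.exp_add]
    congr 1
    push_cast
    field_simp
    ring
  have heta : ModularForm.eta z ^ (8 * l) = (y ^ l * P q ^ 8) ^ l := by
    rw [pow_mul, HQ_eta, ← hq, hP]
    congr 2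
    rw [hy, ← Complex.exp_nat_mul]
    congr 1
    field_simp
  have hetal : ModularForm.eta (l * z) ^ 8 = y ^ (l * l) * P (q ^ l) ^ 8 := by
    rw [HQ_eta, hP, hq]
    congr 1
    · rw [hy, ← Complex.exp_nat_mul]
      congr 1
      push_cast
      field_simp
    · rw [HQ_qParam_mul]
  have hnb : ∀ b : ℕ, ‖y ^ 3 * (ξ ^ 24) ^ b‖ < 1 := by
    intro b
    rw [← hqb]
    exact HQ_norm (hxim b)
  have hPb : ∀ b : ℕ, P (y ^ 3 * (ξ ^ 24) ^ b) ≠ 0 := by
    intro b
    rw [hP]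
    exact (hEVE _ (hnb b)).2.1
  have hql : ‖q ^ l‖ < 1 := by
    rw [norm_pow]
    exact pow_lt_one₀ (norm_nonneg _) hq1 hl0.ne'
  have hPl : P (q ^ l) ≠ 0 := by
    rw [hP]
    exact (hEVE _ hql).2.1
  -- first part
  obtain ⟨S, hS⟩ : ∃ S, S = ∑ b ∈ range l,
      y ^ (3 * N) * (ξ ^ (24 * N)) ^ b * (P (y ^ 3 * (ξ ^ 24) ^ b))⁻¹ ^ (8 * m) := ⟨_, rfl⟩
  have hsum1 : ∑ b ∈ range l,
      (ModularForm.eta z ^ (8 * l) / ModularForm.eta ((z + 24 * (b : ℂ)) / l) ^ 8) ^ m =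
      P q ^ (8 * l * m) * S := by
    rw [hS, Finset.mul_sum]
    refine Finset.sum_congr rfl fun b _ => ?_
    rw [heta, hetab b]
    exact HQ_term l m b N y ξ _ _ hy0 hξl hξ0 (hPb b) hN3
  have hlast : (ModularForm.eta z ^ (8 * l) / ModularForm.eta (l * z) ^ 8) ^ m =
      P q ^ (8 * l * m) * (P (q ^ l))⁻¹ ^ (8 * m) := by
    rw [heta, hetal]
    have h1 : (y ^ l * P q ^ 8) ^ l = y ^ (l * l) * P q ^ (8 * l) := by
      rw [mul_pow, ← pow_mul, ← pow_mul]
    rw [h1, mul_div_mul_left _ _ (pow_ne_zero _ hy0), div_eq_mul_inv, mul_pow, ← pow_mul,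
      ← inv_pow, ← pow_mul]
  have hUS : HasSum (fun n : ℕ => (l : ℂ) * ((PowerSeries.coeff n (UU l m) : ℤ) : ℂ) * q ^ n) S := by
    have h1 : HasSum (fun n : ℕ => ∑ b ∈ range l, y ^ (3 * N) * (ξ ^ (24 * N)) ^ b *
        (((cm m n : ℤ) : ℂ) * (y ^ 3 * (ξ ^ 24) ^ b) ^ n)) S := by
      rw [hS]
      refine hasSum_sum fun b _ => ?_
      have h := hpow PPZ _ _ (8 * m) (hEVE _ (hnb b)).2.2
      have h' : HasSum (fun n : ℕ => ((cm m n : ℤ) : ℂ) * (y ^ 3 * (ξ ^ 24) ^ b) ^ n)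
          ((P (y ^ 3 * (ξ ^ 24) ^ b))⁻¹ ^ (8 * m)) := by
        rw [hP]
        exact h
      exact h'.mul_left _
    have h2 : ∀ n : ℕ, ∑ b ∈ range l, y ^ (3 * N) * (ξ ^ (24 * N)) ^ b *
        (((cm m n : ℤ) : ℂ) * (y ^ 3 * (ξ ^ 24) ^ b) ^ n) =
        ((cm m n : ℤ) : ℂ) * y ^ (3 * (n + N)) * (if l ∣ n + N then (l : ℂ) else 0) := by
      intro n
      have h3 : ∑ b ∈ range l, (ξ ^ (24 * (n + N))) ^ b = if l ∣ 24 * (n + N) then (l : ℂ) else 0 := by
        rw [hξ]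
        exact HQ_sum_root hl0 _
      have h4 : (l ∣ 24 * (n + N)) ↔ l ∣ n + N := by
        constructor
        · intro h
          rcases (hl.dvd_mul).1 h with h | h
          · exfalso
            have : l ∣ 2 ^ 3 * 3 := by simpa using h
            rcases (hl.dvd_mul).1 this with h | h
            · have := hl.dvd_of_dvd_pow h
              have := Nat.le_of_dvd (by norm_num) this
              omega
            · have := Nat.le_of_dvd (by norm_num) h
              omega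
          · exact h
        · intro h
          exact Dvd.dvd.mul_left h 24
      have h5 : ∑ b ∈ range l, (ξ ^ (24 * (n + N))) ^ b = if l ∣ n + N then (l : ℂ) else 0 := by
        rw [h3]
        by_cases h : l ∣ n + N
        · rw [if_pos h, if_pos (h4.2 h)]
        · rw [if_neg h, if_neg (fun h' => h (h4.1 h'))]
      rw [← h5, Finset.mul_sum]
      refine Finset.sum_congr rfl fun b _ => ?_
      rw [mul_pow]
      have e1 : (y ^ 3) ^ n * y ^ (3 * N) = y ^ (3 * (n + N)) := by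
        rw [← pow_mul, ← pow_add, mul_add]
      have e2 : ((ξ ^ 24) ^ b) ^ n * (ξ ^ (24 * N)) ^ b = (ξ ^ (24 * (n + N))) ^ b := by
        simp only [← pow_mul]
        rw [← pow_add]
        congr 1
        ring
      rw [← e1, ← e2]
      ring
    simp_rw [h2] at h1
    -- shift
    have h3 : HasSum (fun K : ℕ => if N ≤ K then ((cm m (K - N) : ℤ) : ℂ) * y ^ (3 * K) *
        (if l ∣ K then (l : ℂ) else 0) else 0) S := by
      have hinj : Function.Injective (fun n : ℕ => n + N) := fun a b h => Nat.add_right_cancel h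
      rw [← hinj.hasSum_iff]
      · have e : ((fun K : ℕ => if N ≤ K then ((cm m (K - N) : ℤ) : ℂ) * y ^ (3 * K) *
            (if l ∣ K then (l : ℂ) else 0) else 0) ∘ fun n : ℕ => n + N) =
            fun n => ((cm m n : ℤ) : ℂ) * y ^ (3 * (n + N)) *
              (if l ∣ n + N then (l : ℂ) else 0) := by
          funext n
          simp only [Function.comp_apply]
          rw [if_pos (Nat.le_add_left N n), Nat.add_sub_cancel]
        rw [e]
        exact h1
      · intro K hK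
        rw [if_neg]
        intro h
        exact hK ⟨K - N, by simp only; omega⟩
    rw [← (HQ_mul_inj hl0).hasSum_iff] at h3
    · have e : ((fun K : ℕ => if N ≤ K then ((cm m (K - N) : ℤ) : ℂ) * y ^ (3 * K) *
          (if l ∣ K then (l : ℂ) else 0) else 0) ∘ fun n : ℕ => l * n) =
          fun n : ℕ => (l : ℂ) * ((PowerSeries.coeff n (UU l m) : ℤ) : ℂ) * q ^ n := by
        funext n
        simp only [Function.comp_apply]
        unfold UU
        rw [PowerSeries.coeff_mk, ← hN, if_pos (Dvd.intro n rfl), hqy]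
        split_ifs with h
        · rw [← pow_mul, mul_assoc 3 l n]
          ring
        · simp
      rw [e] at h3
      exact h3
    · intro K hK
      have : ¬ l ∣ K := by
        rintro ⟨c, rfl⟩
        exact hK ⟨c, rfl⟩
      rw [if_neg this]
      simp
  have hU : Evq (PowerSeries.C ((l : ℤ) ^ (4 * m + 1)) * UU l m) q ((l : ℂ) ^ (4 * m) * S) := by
    unfold Evq
    have h := hUS.mul_left ((l : ℂ) ^ (4 * m))
    have e : (fun n : ℕ => ((PowerSeries.coeff n
        (PowerSeries.C ((l : ℤ) ^ (4 * m + 1)) * UU l m) : ℤ) : ℂ) * q ^ n) =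
        fun n : ℕ => (l : ℂ) ^ (4 * m) *
          ((l : ℂ) * ((PowerSeries.coeff n (UU l m) : ℤ) : ℂ) * q ^ n) := by
      funext n
      rw [PowerSeries.coeff_C_mul]
      push_cast
      ring
    rw [e]
    exact h
  have hV : Evq (VV l m) q ((P (q ^ l))⁻¹ ^ (8 * m)) := by
    unfold Evq
    have h := hpow PPZ _ _ (8 * m) (hEVE _ hql).2.2
    have h' : HasSum (fun n : ℕ => ((cm m n : ℤ) : ℂ) * (q ^ l) ^ n)
        ((P (q ^ l))⁻¹ ^ (8 * m)) := by
      rw [hP]
      exact h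
    rw [← (HQ_mul_inj hl0).hasSum_iff]
    · have e : ((fun n : ℕ => ((PowerSeries.coeff n (VV l m) : ℤ) : ℂ) * q ^ n) ∘
          fun n : ℕ => l * n) = fun n : ℕ => ((cm m n : ℤ) : ℂ) * (q ^ l) ^ n := by
        funext n
        simp only [Function.comp_apply]
        unfold VV
        rw [PowerSeries.coeff_mk, if_pos (Dvd.intro n rfl), Nat.mul_div_cancel_left _ hl0, ← pow_mul]
      rw [e]
      exact h'
    · intro n hn
      have : ¬ l ∣ n := by
        rintro ⟨c, rfl⟩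
        exact hn ⟨c, rfl⟩
      unfold VV
      rw [PowerSeries.coeff_mk, if_neg this]
      simp
  have hE : Evq (pentagonalSeries ℤ ^ (8 * l * m)) q (P q ^ (8 * l * m)) := by
    have h := hpow (pentagonalSeries ℤ) q _ (8 * l * m) (hEVE q hq1).1
    rw [hP]
    exact h
  have hfin := hmul _ _ _ _ _ hE (hadd _ _ _ _ _ hU hV)
  have hval : Hf l m z = P q ^ (8 * l * m) * ((l : ℂ) ^ (4 * m) * S + (P (q ^ l))⁻¹ ^ (8 * m)) := by
    unfold Hf
    rw [hsum1, hlast]
    ring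
  rw [hval, ← hq]
  exact hfin

end Pool.Agent.EP
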