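import Pool.Agent.helper7.EP.SpecA
import Pool.Agent.helper29.OC.PIAP

set_option autoImplicit false

open Finset PowerSeries

noncomputable section

namespace Pool.Agent.EP

/-- The analytic part: one `X`. -/
theorem FINA_core (c₀ κ s R A T y K P B S : ℝ) (hc : 0 < c₀) (hκ : 1 ≤ κ) (hκ2 : 96 / c₀ ≤ κ)
    (hs : 1 ≤ s) (hR : 1 ≤ R) (hA : 1 ≤ A) (hT : T = κ * R * s) (hAT : A ≤ T) (hTA : T ≤ 2 * A)
    (hy1 : R ^ 4 / (2 * A ^ 2) ≤ y) (hy2 : y ≤ R ^ 4 / A ^ 2) (hy0 : 1 ≤ y)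
    (hRs : 8 * κ ^ 2 * (3 * κ + 3) / c₀ * s ^ 5 ≤ R)
    (hK : A ≤ 4 * K) (hP : c₀ * y / s ^ 2 ≤ P)
    (hB : B ≤ (2 * y / A) * (3 * Real.sqrt y) + 3 * A + Real.sqrt y + 1)
    (hmain : K * P ≤ 16 * S + K * B) :
    c₀ / (256 * κ) * (R ^ 3 / s ^ 3) ≤ S := by
  have hs0 : 0 < s := by linarith
  have hR0 : 0 < R := by linarith
  have hA0 : 0 < A := by linarith
  have hκ0 : 0 < κ := by linarith
  have hy00 : 0 < y := by linarith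
  have hT0 : 0 < T := by linarith
  have hσ : Real.sqrt y ≤ R ^ 2 / A := by
    apply Real.sqrt_le_iff.2
    refine ⟨by positivity, ?_⟩
    have : (R ^ 2 / A) ^ 2 = R ^ 4 / A ^ 2 := by
      rw [div_pow]; ring
    rw [this]
    exact hy2
  have hσ0 : 0 ≤ Real.sqrt y := Real.sqrt_nonneg y
  -- the first term
  have hA2 : T ^ 2 / 4 ≤ A ^ 2 := by nlinarith
  have h1 : (2 * y / A) * (3 * Real.sqrt y) ≤ c₀ * y / (4 * s ^ 2) := by
    have e1 : (2 * y / A) * (3 * Real.sqrt y) ≤ (2 * y / A) * (3 * (R ^ 2 / A)) := by gcongr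
    have e2 : (2 * y / A) * (3 * (R ^ 2 / A)) = 6 * y * R ^ 2 / A ^ 2 := by field_simp; ring
    have e3 : 6 * y * R ^ 2 / A ^ 2 ≤ 6 * y * R ^ 2 / (T ^ 2 / 4) := by gcongr
    have e4 : 6 * y * R ^ 2 / (T ^ 2 / 4) = 24 * y / (κ ^ 2 * s ^ 2) := by
      rw [hT]; field_simp; ring
    have e5 : 24 * y / (κ ^ 2 * s ^ 2) ≤ c₀ * y / (4 * s ^ 2) := by
      rw [div_le_div_iff₀ (by positivity) (by positivity)]
      have h2 : 96 ≤ c₀ * κ := by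
        rw [div_le_iff₀ hc] at hκ2
        linarith
      have h3 : 96 ≤ c₀ * κ ^ 2 := by nlinarith [mul_pos hc hκ0]
      have h4 : 0 < y * s ^ 2 := by positivity
      nlinarith [mul_le_mul_of_nonneg_right h3 h4.le]
    linarith
  -- lower bound of y
  have hylow : R ^ 2 / (2 * κ ^ 2 * s ^ 2) ≤ y := by
    refine le_trans ?_ hy1
    have e1 : A ^ 2 ≤ (κ * R * s) ^ 2 := by rw [← hT]; gcongr
    calc R ^ 2 / (2 * κ ^ 2 * s ^ 2) = R ^ 4 / (2 * (κ * R * s) ^ 2) := by field_simp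
      _ ≤ R ^ 4 / (2 * A ^ 2) := by gcongr
  have h2 : 3 * A + Real.sqrt y + 1 ≤ c₀ * y / (4 * s ^ 2) := by
    have e1 : 3 * A ≤ 3 * κ * (R * s) := by rw [hT] at hAT; linarith
    have e2 : Real.sqrt y ≤ 2 * (R * s) := by
      have e3 : R ^ 2 / A ≤ R ^ 2 / (T / 2) := by
        gcongr
        linarith
      have e4 : R ^ 2 / (T / 2) = 2 * R / (κ * s) := by rw [hT]; field_simp
      have e5 : 2 * R / (κ * s) ≤ 2 * (R * s) := by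
        rw [div_le_iff₀ (by positivity)]
        have : 1 ≤ s * (κ * s) := by
          have h6 : 1 ≤ κ * s := by nlinarith
          nlinarith
        nlinarith
      linarith
    have e3 : 1 ≤ R * s := by nlinarith
    have e4 : 3 * A + Real.sqrt y + 1 ≤ (3 * κ + 3) * (R * s) := by linarith
    have e5 : (3 * κ + 3) * (R * s) ≤ c₀ * (R ^ 2 / (2 * κ ^ 2 * s ^ 2)) / (4 * s ^ 2) := by
      rw [le_div_iff₀ (by positivity)]
      have e6 : c₀ * (R ^ 2 / (2 * κ ^ 2 * s ^ 2)) = c₀ * R ^ 2 / (2 * κ ^ 2 * s ^ 2) := by ring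
      rw [e6, le_div_iff₀ (by positivity)]
      have e7 : 8 * κ ^ 2 * (3 * κ + 3) * s ^ 5 ≤ c₀ * R := by
        have e8 : 8 * κ ^ 2 * (3 * κ + 3) / c₀ * s ^ 5 = 8 * κ ^ 2 * (3 * κ + 3) * s ^ 5 / c₀ := by ring
        rw [e8, div_le_iff₀ hc] at hRs
        linarith
      nlinarith [mul_le_mul_of_nonneg_right e7 hR0.le]
    have e6 : c₀ * (R ^ 2 / (2 * κ ^ 2 * s ^ 2)) / (4 * s ^ 2) ≤ c₀ * y / (4 * s ^ 2) := by gcongr
    linarith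
  have hB2 : B ≤ c₀ * y / (2 * s ^ 2) := by
    have : c₀ * y / (2 * s ^ 2) = c₀ * y / (4 * s ^ 2) + c₀ * y / (4 * s ^ 2) := by
      field_simp; ring
    linarith
  have hPB : c₀ * y / (2 * s ^ 2) ≤ P - B := by
    have : c₀ * y / s ^ 2 = c₀ * y / (2 * s ^ 2) + c₀ * y / (2 * s ^ 2) := by
      field_simp; ring
    linarith
  have hpos : 0 ≤ c₀ * y / (2 * s ^ 2) := by positivity
  have h3 : A / 4 * (c₀ * y / (2 * s ^ 2)) ≤ 16 * S := by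
    have e1 : A / 4 * (c₀ * y / (2 * s ^ 2)) ≤ K * (P - B) := by
      have : A / 4 ≤ K := by linarith
      have hK0 : 0 ≤ K := by linarith
      exact mul_le_mul this hPB hpos hK0
    linarith [e1, mul_sub K P B]
  have h4 : R ^ 3 / (2 * κ * s) ≤ A * y := by
    have e1 : A * (R ^ 4 / (2 * A ^ 2)) ≤ A * y := by gcongr
    have e2 : A * (R ^ 4 / (2 * A ^ 2)) = R ^ 4 / (2 * A) := by field_simp
    have e3 : R ^ 4 / (2 * T) ≤ R ^ 4 / (2 * A) := by gcongr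
    have e4 : R ^ 4 / (2 * T) = R ^ 3 / (2 * κ * s) := by rw [hT]; field_simp
    linarith
  have h5 : A / 4 * (c₀ * y / (2 * s ^ 2)) = c₀ / (8 * s ^ 2) * (A * y) := by field_simp; ring
  have h6 : c₀ / (8 * s ^ 2) * (R ^ 3 / (2 * κ * s)) ≤ c₀ / (8 * s ^ 2) * (A * y) := by gcongr
  have h7 : c₀ / (8 * s ^ 2) * (R ^ 3 / (2 * κ * s)) = 16 * (c₀ / (256 * κ) * (R ^ 3 / s ^ 3)) := by
    field_simp; ring
  linarith

theorem FINA_tcl (a : ℕ) (ha : 2 ≤ a) : Nat.Coprime (tcl a) 24 := by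
  have h : 2 ^ a % 24 = 4 ∨ 2 ^ a % 24 = 8 ∨ 2 ^ a % 24 = 16 := by
    induction a, ha using Nat.le_induction with
    | base => left; rfl
    | succ n hn ih =>
      rw [pow_succ]
      omega
  have h2 : tcl a = 23 ∨ tcl a = 19 ∨ tcl a = 11 := by
    unfold tcl
    omega
  rcases h2 with h2 | h2 | h2 <;> rw [h2] <;> decide

theorem FINA_mono {m n : ℕ} (h : m ≤ n) : sE m ≤ sE n := by
  unfold sE
  refine Finset.card_le_card ?_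
  refine Finset.filter_subset_filter _ ?_
  exact Finset.range_mono (by omega)

theorem FINA_B (a y : ℕ) (hy : 1 ≤ y) :
    ((((2 * y / 2 ^ a) * (Nat.sqrt (2 * y) + 1) + (2 * 2 ^ a + Nat.sqrt y + 1) + 2 ^ a : ℕ)) : ℝ) ≤
      (2 * (y : ℝ) / 2 ^ a) * (3 * Real.sqrt y) + 3 * 2 ^ a + Real.sqrt y + 1 := by
  have hy' : (1 : ℝ) ≤ y := by exact_mod_cast hy
  have h1 : ((2 * y / 2 ^ a : ℕ) : ℝ) ≤ 2 * (y : ℝ) / 2 ^ a := by
    refine Nat.cast_div_le.trans ?_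
    push_cast
    exact le_rfl
  have h2 : (Nat.sqrt y : ℝ) ≤ Real.sqrt y := Real.nat_sqrt_le_real_sqrt
  have h3 : (Nat.sqrt (2 * y) : ℝ) ≤ Real.sqrt ((2 * y : ℕ) : ℝ) := Real.nat_sqrt_le_real_sqrt
  have h4 : Real.sqrt ((2 * y : ℕ) : ℝ) ≤ 2 * Real.sqrt y := by
    apply Real.sqrt_le_iff.2
    refine ⟨by positivity, ?_⟩
    rw [mul_pow, Real.sq_sqrt (by positivity)]
    push_cast
    linarith
  have h5 : 1 ≤ Real.sqrt y := Real.one_le_sqrt.2 hy'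
  have h6 : ((Nat.sqrt (2 * y) : ℝ) + 1) ≤ 3 * Real.sqrt y := by linarith
  push_cast
  have h7 : ((2 * y / 2 ^ a : ℕ) : ℝ) * ((Nat.sqrt (2 * y) : ℝ) + 1) ≤
      (2 * (y : ℝ) / 2 ^ a) * (3 * Real.sqrt y) := by
    exact mul_le_mul h1 h6 (by positivity) (by positivity)
  linarith

theorem FINA_of (hKC : KC_stmt) (hCNT : CNT_stmt)
    (hPr : ∃ (c : ℝ) (x₀ : ℕ), 0 < c ∧ ∀ b : ℕ, Nat.Coprime b 24 → ∀ x : ℕ, x₀ ≤ x →
      c * x / Real.log x ≤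
        (((Ioc x (2 * x)).filter fun p => p.Prime ∧ p % 24 = b % 24).card : ℝ)) :
    RESA_stmt := by
  classical
  obtain ⟨c₀, x₀, hc, hP⟩ := hPr
  obtain ⟨κ, hκd⟩ : ∃ κ : ℝ, κ = 96 / c₀ + 1 := ⟨_, rfl⟩
  have hκ2 : 96 / c₀ ≤ κ := by rw [hκd]; linarith
  have hκ : 1 ≤ κ := by
    have : 0 < 96 / c₀ := by positivity
    rw [hκd]; linarith
  have hκ0 : 0 < κ := by linarith
  obtain ⟨D, hD⟩ : ∃ D : ℝ, D = 8 * κ ^ 2 * (3 * κ + 3) / c₀ + 10 * κ ^ 3 +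
      2 * κ ^ 2 * (x₀ + 2) + 8 := ⟨_, rfl⟩
  have hD1 : 8 * κ ^ 2 * (3 * κ + 3) / c₀ ≤ D := by
    have : 0 ≤ 10 * κ ^ 3 + 2 * κ ^ 2 * (x₀ + 2) + 8 := by positivity
    rw [hD]; linarith
  have hD2 : 10 * κ ^ 3 ≤ D := by
    have : 0 ≤ 8 * κ ^ 2 * (3 * κ + 3) / c₀ + 2 * κ ^ 2 * (x₀ + 2) + 8 := by positivity
    rw [hD]; linarith
  have hD3 : 2 * κ ^ 2 * (x₀ + 2) ≤ D := by
    have : 0 ≤ 8 * κ ^ 2 * (3 * κ + 3) / c₀ + 10 * κ ^ 3 + 8 := by positivity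
    rw [hD]; linarith
  have hD4 : 8 ≤ D := by
    have : 0 ≤ 8 * κ ^ 2 * (3 * κ + 3) / c₀ + 10 * κ ^ 3 + 2 * κ ^ 2 * (x₀ + 2) := by positivity
    rw [hD]; linarith
  have hD0 : 0 < D := by linarith
  refine ⟨c₀ / (256 * κ), by positivity, ?_⟩
  have hev : ∀ᶠ x : ℝ in Filter.atTop, D * Real.log x ^ (5 / 2 : ℝ) ≤ x ^ (1 / 4 : ℝ) := by
    have h := (isLittleO_log_rpow_rpow_atTop (5 / 2 : ℝ) (by norm_num : (0 : ℝ) < 1 / 4)).bound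
      (inv_pos.2 hD0)
    filter_upwards [h, Filter.eventually_ge_atTop (1 : ℝ)] with x hx hx1
    rw [Real.norm_of_nonneg (Real.rpow_nonneg (Real.log_nonneg hx1) _),
      Real.norm_of_nonneg (Real.rpow_nonneg (by linarith) _)] at hx
    calc D * Real.log x ^ (5 / 2 : ℝ) ≤ D * (D⁻¹ * x ^ (1 / 4 : ℝ)) := by gcongr
      _ = x ^ (1 / 4 : ℝ) := by rw [← mul_assoc, mul_inv_cancel₀ hD0.ne', one_mul]
  have hev2 : ∀ᶠ x : ℝ in Filter.atTop, 1 ≤ Real.log x :=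
    Real.tendsto_log_atTop.eventually_ge_atTop 1
  obtain ⟨x₁, hx₁⟩ := Filter.eventually_atTop.1 (hev.and hev2)
  refine ⟨⌈max x₁ 1⌉₊, fun X hX => ?_⟩
  have hXr : max x₁ 1 ≤ (X : ℝ) := (Nat.le_ceil _).trans (by exact_mod_cast hX)
  have hX1 : (1 : ℝ) ≤ X := (le_max_right _ _).trans hXr
  have hX0 : (0 : ℝ) ≤ X := by linarith
  obtain ⟨h1, h2⟩ := hx₁ X ((le_max_left _ _).trans hXr)
  have hL0 : 0 ≤ Real.log X := by linarith
  obtain ⟨R, hRd⟩ : ∃ R : ℝ, R = (X : ℝ) ^ (1 / 4 : ℝ) := ⟨_, rfl⟩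
  obtain ⟨s, hsd⟩ : ∃ s : ℝ, s = Real.log X ^ (1 / 2 : ℝ) := ⟨_, rfl⟩
  have hR4 : R ^ 4 = X := by
    rw [hRd, ← Real.rpow_natCast, ← Real.rpow_mul hX0]
    norm_num
  have hR3 : (X : ℝ) ^ (3 / 4 : ℝ) = R ^ 3 := by
    rw [hRd, ← Real.rpow_natCast, ← Real.rpow_mul hX0]
    norm_num
  have hs2 : s ^ 2 = Real.log X := by
    rw [hsd, ← Real.rpow_natCast, ← Real.rpow_mul hL0]
    norm_num
  have hs3 : Real.log X ^ (3 / 2 : ℝ) = s ^ 3 := by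
    rw [hsd, ← Real.rpow_natCast, ← Real.rpow_mul hL0]
    norm_num
  have hs5 : Real.log X ^ (5 / 2 : ℝ) = s ^ 5 := by
    rw [hsd, ← Real.rpow_natCast, ← Real.rpow_mul hL0]
    norm_num
  rw [hs5, ← hRd] at h1
  have hs1 : 1 ≤ s := by
    rw [hsd]
    exact Real.one_le_rpow h2 (by norm_num)
  have hs0 : 0 < s := by linarith
  have hs51 : 1 ≤ s ^ 5 := one_le_pow₀ hs1
  have hRs5 : s ^ 5 ≤ R := by
    refine le_trans ?_ h1
    exact le_mul_of_one_le_left (by positivity) (by linarith)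
  have hR8 : 8 ≤ R := by
    refine le_trans ?_ h1
    calc (8 : ℝ) ≤ D := hD4
      _ ≤ D * s ^ 5 := le_mul_of_one_le_right hD0.le hs51
  have hR1 : 1 ≤ R := by linarith
  have hR0 : 0 < R := by linarith
  obtain ⟨T, hT⟩ : ∃ T : ℝ, T = κ * R * s := ⟨_, rfl⟩
  have hT8 : 8 ≤ T := by
    rw [hT]
    have : 8 ≤ κ * R := by nlinarith
    nlinarith
  have hT0 : 0 ≤ T := by linarith
  have hTf : ⌊T⌋₊ ≠ 0 := by
    have : 0 < ⌊T⌋₊ := Nat.floor_pos.2 (by linarith)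
    omega
  obtain ⟨a, ha⟩ : ∃ a, a = Nat.log 2 ⌊T⌋₊ := ⟨_, rfl⟩
  have hAT : ((2 : ℝ) ^ a) ≤ T := by
    have h3 : 2 ^ a ≤ ⌊T⌋₊ := by rw [ha]; exact Nat.pow_log_le_self 2 hTf
    calc ((2 : ℝ) ^ a) = ((2 ^ a : ℕ) : ℝ) := by push_cast; rfl
      _ ≤ (⌊T⌋₊ : ℝ) := by exact_mod_cast h3
      _ ≤ T := Nat.floor_le hT0
  have hTA : T ≤ 2 * (2 : ℝ) ^ a := by
    have h3 : ⌊T⌋₊ < 2 ^ (a + 1) := by rw [ha]; exact Nat.lt_pow_succ_log_self (by norm_num) _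
    have h4 : T < ((2 ^ (a + 1) : ℕ) : ℝ) := (Nat.floor_lt' (by positivity)).1 h3
    have h5 : ((2 ^ (a + 1) : ℕ) : ℝ) = 2 * (2 : ℝ) ^ a := by push_cast; ring
    rw [h5] at h4
    exact h4.le
  have ha2 : 2 ≤ a := by
    by_contra hcon
    have h3 : a ≤ 1 := by omega
    have h4 : (2 : ℝ) ^ a ≤ 2 ^ 1 := pow_le_pow_right₀ (by norm_num) h3
    linarith
  obtain ⟨y, hy⟩ : ∃ y, y = X / 4 ^ a := ⟨_, rfl⟩
  have hA1 : (1 : ℝ) ≤ 2 ^ a := one_le_pow₀ (by norm_num)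
  have h4A : (((4 ^ a : ℕ)) : ℝ) = ((2 : ℝ) ^ a) ^ 2 := by
    push_cast
    rw [← pow_mul, mul_comm, pow_mul]
    norm_num
  have hY2 : (y : ℝ) ≤ R ^ 4 / ((2 : ℝ) ^ a) ^ 2 := by
    rw [hy, hR4, ← h4A]
    exact Nat.cast_div_le
  have hYlt : R ^ 4 / ((2 : ℝ) ^ a) ^ 2 < y + 1 := by
    rw [hR4, ← h4A, div_lt_iff₀ (by positivity)]
    have h3 : X < 4 ^ a * (X / 4 ^ a + 1) := Nat.lt_mul_div_succ X (by positivity)
    rw [← hy] at h3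
    have h5 : ((X : ℕ) : ℝ) < ((4 ^ a * (y + 1) : ℕ) : ℝ) := by exact_mod_cast h3
    push_cast at h5 ⊢
    linarith
  have hYlow : R ^ 2 / (κ ^ 2 * s ^ 2) ≤ R ^ 4 / ((2 : ℝ) ^ a) ^ 2 := by
    have e1 : ((2 : ℝ) ^ a) ^ 2 ≤ (κ * R * s) ^ 2 := by rw [← hT]; gcongr
    calc R ^ 2 / (κ ^ 2 * s ^ 2) = R ^ 4 / (κ * R * s) ^ 2 := by field_simp
      _ ≤ _ := by gcongr
  have hbig : 2 * ((x₀ : ℝ) + 2) ≤ R ^ 2 / (κ ^ 2 * s ^ 2) := by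
    rw [le_div_iff₀ (by positivity)]
    have e1 : 2 * κ ^ 2 * (x₀ + 2) * s ^ 5 ≤ R := by
      refine le_trans ?_ h1
      gcongr
    have e2 : s ^ 2 ≤ s ^ 5 := pow_le_pow_right₀ hs1 (by norm_num)
    have e3 : 2 * κ ^ 2 * (x₀ + 2) * s ^ 2 ≤ R := by
      refine le_trans ?_ e1
      gcongr
    nlinarith
  have hyY : R ^ 4 / ((2 : ℝ) ^ a) ^ 2 / 2 ≤ y := by
    have : 2 ≤ R ^ 4 / ((2 : ℝ) ^ a) ^ 2 := by
      have : (0 : ℝ) ≤ x₀ := Nat.cast_nonneg _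
      linarith
    linarith
  have hyx0 : x₀ + 2 ≤ y := by
    have : ((x₀ + 2 : ℕ) : ℝ) ≤ y := by
      push_cast
      linarith
    exact_mod_cast this
  have h5A : 5 * 2 ^ a ≤ y := by
    have e1 : 10 * κ ^ 3 * s ^ 5 ≤ R := by
      refine le_trans ?_ h1
      gcongr
    have e2 : s ^ 3 ≤ s ^ 5 := pow_le_pow_right₀ hs1 (by norm_num)
    have e3 : 10 * κ ^ 3 * s ^ 3 ≤ R := by
      refine le_trans ?_ e1
      gcongr
    have e4 : 5 * T ≤ R ^ 2 / (κ ^ 2 * s ^ 2) / 2 := by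
      rw [hT, le_div_iff₀ (by norm_num), le_div_iff₀ (by positivity)]
      nlinarith [mul_le_mul_of_nonneg_left e3 hR0.le]
    have e5 : ((5 * 2 ^ a : ℕ) : ℝ) ≤ y := by
      push_cast
      linarith
    exact_mod_cast e5
  have hy1 : 1 ≤ y := by omega
  have hyr1 : (1 : ℝ) ≤ y := by exact_mod_cast hy1
  have hyX : (y : ℝ) ≤ X := by
    have : y ≤ X := by rw [hy]; exact Nat.div_le_self _ _
    exact_mod_cast this
  have hlogy : 0 < Real.log y := Real.log_pos (by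
    have : 2 ≤ y := by omega
    have : (2 : ℝ) ≤ y := by exact_mod_cast this
    linarith)
  have hPt : c₀ * y / s ^ 2 ≤ (#(Pt a y) : ℝ) := by
    have h3 := hP (tcl a) (FINA_tcl a ha2) y (by omega)
    refine le_trans ?_ (le_trans h3 ?_)
    · rw [hs2]
      have h4 : Real.log y ≤ Real.log X := Real.log_le_log (by linarith) hyX
      gcongr
    · unfold Pt
      exact le_rfl
  have hKs : (2 : ℝ) ^ a ≤ 4 * (#(Ks a) : ℝ) := by exact_mod_cast hKC a ha2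
  have hmain := hCNT a y ha2 h5A
  have hSE : sE (4 ^ a * y) ≤ sE X := by
    apply FINA_mono
    rw [hy]
    exact Nat.mul_div_le X (4 ^ a)
  have hmain2 : (#(Ks a) : ℝ) * (#(Pt a y) : ℝ) ≤ 16 * (sE X : ℝ) + (#(Ks a) : ℝ) *
      (((((2 * y / 2 ^ a) * (Nat.sqrt (2 * y) + 1) + (2 * 2 ^ a + Nat.sqrt y + 1) + 2 ^ a : ℕ)) : ℝ)) := by
    have h3 : #(Ks a) * #(Pt a y) ≤ 16 * sE X +
        #(Ks a) * ((2 * y / 2 ^ a) * (Nat.sqrt (2 * y) + 1) + (2 * 2 ^ a + Nat.sqrt y + 1) + 2 ^ a) :=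
      hmain.trans (by omega)
    exact_mod_cast h3
  have hfin := FINA_core c₀ κ s R (2 ^ a) T y _ _ _ (sE X) hc hκ hκ2 hs1 hR1 hA1 hT hAT hTA
    (by
      have : R ^ 4 / (2 * ((2 : ℝ) ^ a) ^ 2) = R ^ 4 / ((2 : ℝ) ^ a) ^ 2 / 2 := by field_simp
      rw [this]; exact hyY)
    hY2 hyr1
    (by
      refine le_trans ?_ h1
      gcongr)
    hKs hPt (FINA_B a y hy1) hmain2
  rw [hR3, hs3]
  calc c₀ / (256 * κ) * R ^ 3 / s ^ 3 = c₀ / (256 * κ) * (R ^ 3 / s ^ 3) := by ring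
    _ ≤ _ := hfin

theorem FINA (hKC : KC_stmt) (hCNT : CNT_stmt) : RESA_stmt :=
  FINA_of hKC hCNT (Pool.Agent.helper7.OC.primes_ap_unif 24 (by norm_num))

end Pool.Agent.EP
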