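import Pool.Agent.helper81.EP.SpecO

set_option autoImplicit false

open Finset
open scoped Real

noncomputable section

namespace Pool.Agent.EP

theorem OR_half (d : ℕ) (B u v : ℤ) (h3 : ¬ 3 ∣ d)
    (hu : (d : ℤ) ∣ 3 * u ^ 2 + B) (hv : (d : ℤ) ∣ 3 * v ^ 2 + B)
    (hd : 0 < d) : ((d / Int.gcd (u - v) d : ℕ) : ℤ) ∣ u + v := by
  obtain ⟨g, hg⟩ : ∃ g, g = Int.gcd (u - v) d := ⟨_, rfl⟩
  have hg0 : 0 < g := by
    rw [hg]
    exact Int.gcd_pos_of_ne_zero_right _ (by exact_mod_cast hd.ne')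
  have hgd : g ∣ d := by
    have : (g : ℤ) ∣ (d : ℤ) := by rw [hg]; exact Int.gcd_dvd_right _ _
    exact_mod_cast this
  obtain ⟨d', hd'⟩ := hgd
  have hgu : (g : ℤ) ∣ u - v := by rw [hg]; exact Int.gcd_dvd_left _ _
  obtain ⟨t, ht⟩ := hgu
  have h1 : (d : ℤ) ∣ 3 * ((u - v) * (u + v)) := by
    have := dvd_sub hu hv
    have h2 : 3 * u ^ 2 + B - (3 * v ^ 2 + B) = 3 * ((u - v) * (u + v)) := by ring
    rwa [h2] at this
  have hcop3 : IsCoprime (d : ℤ) 3 := by
    have : Nat.Coprime d 3 := ((Nat.Prime.coprime_iff_not_dvd Nat.prime_three).2 h3).symm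
    exact_mod_cast Nat.isCoprime_iff_coprime.2 this
  have h2 : (d : ℤ) ∣ (u - v) * (u + v) := hcop3.dvd_of_dvd_mul_left h1
  rw [← hg, hd', Nat.mul_div_cancel_left _ hg0]
  have h3' : (d' : ℤ) ∣ t * (u + v) := by
    rw [hd', ht] at h2
    push_cast at h2
    rw [mul_assoc] at h2
    exact (mul_dvd_mul_iff_left (by exact_mod_cast hg0.ne')).1 h2
  have hcop : IsCoprime (d' : ℤ) t := by
    rw [Int.isCoprime_iff_gcd_eq_one]
    have h4 : g * Int.gcd (d' : ℤ) t = g := by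
      have h5 : Int.gcd ((g : ℤ) * t) ((g : ℤ) * d') = g * Int.gcd t d' := by
        rw [Int.gcd_mul_left, Int.natAbs_natCast]
      rw [← ht, ← Nat.cast_mul, ← hd', ← hg] at h5
      rw [Int.gcd_comm]
      exact h5.symm
    exact Nat.eq_of_mul_eq_mul_left hg0 (by rw [h4, mul_one])
  exact hcop.dvd_of_dvd_mul_left h3'

theorem OR : OR_stmt := by
  intro d B x hodd h3
  have hd : 0 < d := by
    rcases Nat.eq_zero_or_pos d with h | h
    · rw [h] at hodd; simp at hodd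
    · exact h
  obtain ⟨S, hS⟩ : ∃ S, S = {u ∈ Finset.Ico x (x + d) | (d : ℤ) ∣ 3 * u ^ 2 + B ∧ Int.gcd u d = 1} :=
    ⟨_, rfl⟩
  rw [← hS]
  rcases S.eq_empty_or_nonempty with he | ⟨v, hv⟩
  · rw [he]; simp
  have hmem : ∀ u ∈ S, (x ≤ u ∧ u < x + d) ∧ (d : ℤ) ∣ 3 * u ^ 2 + B ∧ Int.gcd u d = 1 := by
    intro u hu
    rw [hS, Finset.mem_filter, Finset.mem_Ico] at hu
    exact hu
  obtain ⟨-, hvB, hvd⟩ := hmem v hv
  refine Finset.card_le_card_of_injOn (fun u => Int.gcd (u - v) d) ?_ ?_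
  · intro u _
    simp only [Finset.mem_coe, Nat.mem_divisors]
    refine ⟨?_, hd.ne'⟩
    have : ((Int.gcd (u - v) d : ℕ) : ℤ) ∣ (d : ℤ) := Int.gcd_dvd_right _ _
    exact_mod_cast this
  · intro u hu u' hu' hgg
    simp only at hgg
    obtain ⟨⟨hu1, hu2⟩, huB, hud⟩ := hmem u hu
    obtain ⟨⟨hu1', hu2'⟩, huB', hud'⟩ := hmem u' hu'
    have hA := OR_half d B u v h3 huB hvB hd
    have hA' := OR_half d B u' v h3 huB' hvB hd
    rw [← hgg] at hA'
    obtain ⟨g, hg⟩ : ∃ g, g = Int.gcd (u - v) d := ⟨_, rfl⟩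
    have hg0 : 0 < g := by
      rw [hg]
      exact Int.gcd_pos_of_ne_zero_right _ (by exact_mod_cast hd.ne')
    have hgd : g ∣ d := by
      have : (g : ℤ) ∣ (d : ℤ) := by rw [hg]; exact Int.gcd_dvd_right _ _
      exact_mod_cast this
    obtain ⟨d', hd'⟩ := hgd
    have hgu : (g : ℤ) ∣ u - v := by rw [hg]; exact Int.gcd_dvd_left _ _
    have hgu' : (g : ℤ) ∣ u' - v := by rw [hg, hgg]; exact Int.gcd_dvd_left _ _
    rw [← hg, hd', Nat.mul_div_cancel_left _ hg0] at hA hA'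
    have h1 : (g : ℤ) ∣ u - u' := by
      have := dvd_sub hgu hgu'
      rwa [show u - v - (u' - v) = u - u' by ring] at this
    have h2 : (d' : ℤ) ∣ u - u' := by
      have := dvd_sub hA hA'
      rwa [show u + v - (u' + v) = u - u' by ring] at this
    have hcop : IsCoprime (g : ℤ) (d' : ℤ) := by
      rw [Int.isCoprime_iff_gcd_eq_one]
      obtain ⟨c, hc⟩ : ∃ c, c = Int.gcd (g : ℤ) (d' : ℤ) := ⟨_, rfl⟩
      rw [← hc]
      have hcg : (c : ℤ) ∣ (g : ℤ) := by rw [hc]; exact Int.gcd_dvd_left _ _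
      have hcd' : (c : ℤ) ∣ (d' : ℤ) := by rw [hc]; exact Int.gcd_dvd_right _ _
      have hcd : (c : ℤ) ∣ (d : ℤ) := by
        rw [hd']; push_cast; exact dvd_mul_of_dvd_left hcg _
      have h4 : (c : ℤ) ∣ 2 * v := by
        have := dvd_sub (hcd'.trans hA) (hcg.trans hgu)
        rwa [show u + v - (u - v) = 2 * v by ring] at this
      have hc2 : IsCoprime (c : ℤ) 2 := by
        have h5 : Nat.Coprime d 2 := by
          rw [Nat.coprime_comm]
          exact (Nat.Prime.coprime_iff_not_dvd Nat.prime_two).2 (by omega)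
        have h6 : Nat.Coprime c 2 := Nat.Coprime.coprime_dvd_left (by exact_mod_cast hcd) h5
        exact_mod_cast Nat.isCoprime_iff_coprime.2 h6
      have h7 : (c : ℤ) ∣ v := hc2.dvd_of_dvd_mul_left h4
      have h8 : c ∣ Int.gcd v d := by
        have := Int.dvd_coe_gcd h7 hcd
        exact_mod_cast this
      rw [hvd] at h8
      exact Nat.dvd_one.1 h8
    have h9 : (d : ℤ) ∣ u - u' := by
      rw [hd']
      push_cast
      exact hcop.mul_dvd h1 h2
    have h10 : u - u' = 0 := by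
      refine Int.eq_zero_of_abs_lt_dvd h9 ?_
      rw [abs_lt]
      constructor <;> linarith
    linarith

end Pool.Agent.EP
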