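import Pool.Agent.helper7.EP.SpecB

set_option autoImplicit false

open Finset PowerSeries

noncomputable section

namespace Pool.Agent.EP

theorem XA1 : XA1_stmt := by
  intro a k X hk
  have hk2 : k ≤ 2 * 2 ^ a := by
    unfold PK at hk
    rw [mem_filter, mem_Ioc] at hk
    exact hk.1.2
  obtain ⟨N, hN⟩ : ∃ N, N = Nat.sqrt (8 * X + 1 + 4 ^ a) := ⟨_, rfl⟩
  rw [← hN]
  have h4 : (4 : ℕ) ^ a = 2 ^ a * 2 ^ a := by
    rw [← mul_pow]; norm_num
  have hsub : {n : ℕ | n ≤ X ∧ XA a k n} ⊆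
      (((range (N + 1)).image (fun u => (3 * u ^ 2 - 3) / 24) ∪
        (range (N + 1)).image (fun u => (3 * u ^ 2 + 2 ^ a - (3 + k * 2 ^ a)) / 24) : Finset ℕ) :
        Set ℕ) := by
    rintro n ⟨hn, hXA⟩
    rw [mem_coe, mem_union, mem_image, mem_image]
    rcases hXA with ⟨u, hu⟩ | ⟨u, hu⟩
    · left
      refine ⟨u, ?_, ?_⟩
      · rw [mem_range, Nat.lt_succ_iff, hN, Nat.le_sqrt]
        have h1 : 0 < 4 ^ a := by positivity
        nlinarith
      · show (3 * u ^ 2 - 3) / 24 = n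
        omega
    · right
      refine ⟨u, ?_, ?_⟩
      · rw [mem_range, Nat.lt_succ_iff, hN, Nat.le_sqrt]
        have h1 : k * 2 ^ a ≤ 2 * 2 ^ a * 2 ^ a := Nat.mul_le_mul_right _ hk2
        have h2 : u * u = u ^ 2 := by ring
        rw [h2]
        have h3 : 2 * 2 ^ a * 2 ^ a = 2 * 4 ^ a := by rw [h4]; ring
        omega
      · show (3 * u ^ 2 + 2 ^ a - (3 + k * 2 ^ a)) / 24 = n
        omega
  refine (Set.ncard_le_ncard hsub (Finset.finite_toSet _)).trans ?_
  rw [Set.ncard_coe_finset]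
  refine (card_union_le _ _).trans ?_
  have h1 := card_image_le (s := range (N + 1)) (f := fun u => (3 * u ^ 2 - 3) / 24)
  have h2 := card_image_le (s := range (N + 1))
    (f := fun u => (3 * u ^ 2 + 2 ^ a - (3 + k * 2 ^ a)) / 24)
  rw [card_range] at h1 h2
  omega

end Pool.Agent.EP
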